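import Pool.Agent.H33.MV.PearceFalse

/-!
# The gunport problem for boards with no side divisible by 3

We disprove Pearce's formula for the maximum number of holes in a gunport configuration.

Outline of the proof.  Label every cell by `O` (hole), `L`/`R` (left/right half of a horizontal
domino), `U`/`D` (upper/lower neighbour is the partner; `D` marks the top half of a vertical
domino).  If the number of dominoes exceeds the number of holes by `δ`, then only few dominoes
can have a side not touched by a hole.  Hence most vertical dominoes on the left border
start a line of vertical dominoes (one in every column, consecutive ones shifted by one row)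
that reaches the right border, and most horizontal dominoes on the top border start a line of
horizontal dominoes reaching the bottom border.  Two such lines cannot coexist.
-/

set_option autoImplicit false

namespace Pool.Agent.Results.MP_290120_co.PearceFalse

open Pool.H33.MV.PearceFalse

open Finset

/-- Pearce's formula is false.  It fails for every board both of whose sides are at least 53
and not divisible by 3; moreover the deficit `m * n / 3 - G m n` grows at least linearly in the
shorter side. -/
theorem result :
    (¬ ∀ m n : ℕ, 2 ≤ m → 2 ≤ n → ¬ 3 ∣ m → ¬ 3 ∣ n → (G m n : ℚ) = pearceValue m n) ∧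
    (∀ m n : ℕ, 53 ≤ m → 53 ≤ n → ¬ 3 ∣ m → ¬ 3 ∣ n → (G m n : ℚ) < pearceValue m n) ∧
    (∀ m n : ℕ, ¬ 3 ∣ m → ¬ 3 ∣ n →
      (G m n : ℚ) ≤ (m : ℚ) * n / 3 - (2 * (min m n : ℕ) - 36) / 51) :=
  Pool.H33.MV.PearceFalse.result

end Pool.Agent.Results.MP_290120_co.PearceFalse
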